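import Pool.Agent.Helper11.PC.Defs

/-!
# Project PC (MP_1f931d_al), packet SEP: the powers of the augmentation ideal intersect in zero
-/

namespace Pool.Agent.Helper2.PC

open Pool.Agent.Helper11.PC

universe u v

section

variable {Γ : Type u} [Group Γ]

/-- the linear extension of a function -/
noncomputable def E (p : Γ → ℚ) : MonoidAlgebra ℚ Γ →+ ℚ :=
  (Finsupp.liftAddHom fun g => AddMonoidHom.mulRight (p g)).comp
    (MonoidAlgebra.coeffAddEquiv : MonoidAlgebra ℚ Γ ≃+ (Γ →₀ ℚ)).toAddMonoidHom

theorem E_single (p : Γ → ℚ) (g : Γ) (q : ℚ) : E p (MonoidAlgebra.single g q) = q * p g := by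
  simp [E]

theorem E_eq_sum (p : Γ → ℚ) (z : MonoidAlgebra ℚ Γ) :
    E p z = ∑ g ∈ z.coeff.support, z.coeff g * p g := by
  simp [E, Finsupp.sum]

/-- the difference -/
def Dl (g : Γ) (p : Γ → ℚ) : Γ → ℚ := fun h => p (h * g) - p h

theorem E_mul_gl (p : Γ → ℚ) (g : Γ) (z : MonoidAlgebra ℚ Γ) :
    E p (z * MonoidAlgebra.single g 1) = E p z + E (Dl g p) z := by
  induction z using MonoidAlgebra.induction_linear with
  | zero => simp
  | add x y hx hy => rw [add_mul, map_add, map_add, map_add, hx, hy]; ring
  | single h q =>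
    rw [MonoidAlgebra.single_mul_single, E_single, E_single, E_single, Dl]
    ring

theorem E_smul (p : Γ → ℚ) (q : ℚ) (z : MonoidAlgebra ℚ Γ) : E p (q • z) = q * E p z := by
  induction z using MonoidAlgebra.induction_linear with
  | zero => simp
  | add x y hx hy => rw [smul_add, map_add, map_add, hx, hy]; ring
  | single h r =>
    rw [MonoidAlgebra.smul_single', E_single, E_single]
    ring

theorem augHom_single (g : Γ) (q : ℚ) : augHom Γ (MonoidAlgebra.single g q) = q := by
  simp [augHom]

theorem E_mul (p : Γ → ℚ) (z : MonoidAlgebra ℚ Γ) (hz : ∀ g, E (Dl g p) z = 0)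
    (z' : MonoidAlgebra ℚ Γ) : E p (z * z') = augHom Γ z' * E p z := by
  induction z' using MonoidAlgebra.induction_linear with
  | zero => simp
  | add x y hx hy => rw [mul_add, map_add, map_add, hx, hy]; ring
  | single g q =>
    have h1 : MonoidAlgebra.single g q = q • (MonoidAlgebra.single g 1 : MonoidAlgebra ℚ Γ) := by
      rw [MonoidAlgebra.smul_single', mul_one]
    rw [augHom_single, h1, mul_smul_comm, E_smul, E_mul_gl, hz, add_zero]

/-- polynomial functions -/
def P : ℕ → (Γ → ℚ) → Prop
  | 0, p => p = 0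
  | q + 1, p => ∀ g, P q (Dl g p)

theorem Dl_zero (g : Γ) : Dl g (0 : Γ → ℚ) = 0 := by funext h; simp [Dl]

theorem P_zero (q : ℕ) : P q (0 : Γ → ℚ) := by
  induction q with
  | zero => rfl
  | succ q ih => intro g; rw [Dl_zero]; exact ih

theorem P_succ {q : ℕ} {p : Γ → ℚ} (h : P q p) : P (q + 1) p := by
  induction q generalizing p with
  | zero =>
    have : p = 0 := h
    rw [this]
    exact P_zero 1
  | succ q ih => intro g; exact ih (h g)

theorem P_mono {q q' : ℕ} (hq : q ≤ q') {p : Γ → ℚ} (h : P q p) : P q' p := by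
  induction hq with
  | refl => exact h
  | step _ ih => exact P_succ ih

theorem P_add {q : ℕ} {p p' : Γ → ℚ} (h : P q p) (h' : P q p') : P q (p + p') := by
  induction q generalizing p p' with
  | zero =>
    have h1 : p = 0 := h
    have h2 : p' = 0 := h'
    show p + p' = 0
    rw [h1, h2, add_zero]
  | succ q ih =>
    intro g
    have : Dl g (p + p') = Dl g p + Dl g p' := by
      funext h; simp only [Dl, Pi.add_apply]; ring
    rw [this]
    exact ih (h g) (h' g)

theorem P_smul {q : ℕ} {p : Γ → ℚ} (a : ℚ) (h : P q p) : P q (a • p) := by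
  induction q generalizing p with
  | zero =>
    have h1 : p = 0 := h
    show a • p = 0
    rw [h1, smul_zero]
  | succ q ih =>
    intro g
    have : Dl g (a • p) = a • Dl g p := by
      funext h; simp only [Dl, Pi.smul_apply, smul_eq_mul]; ring
    rw [this]
    exact ih (h g)

theorem P_sum {ι : Type*} (s : Finset ι) (f : ι → Γ → ℚ) {q : ℕ} (h : ∀ i ∈ s, P q (f i)) :
    P q (∑ i ∈ s, f i) := by
  classical
  induction s using Finset.induction_on with
  | empty => rw [Finset.sum_empty]; exact P_zero q
  | insert i s hi ih =>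
    rw [Finset.sum_insert hi]
    exact P_add (h i (Finset.mem_insert_self i s)) (ih fun j hj => h j (Finset.mem_insert_of_mem hj))

theorem P_const (a : ℚ) : P 1 (fun _ : Γ => a) := by
  intro g
  show Dl g (fun _ : Γ => a) = 0
  funext h
  simp [Dl]

theorem P_mul (n : ℕ) : ∀ (q q' : ℕ) (p p' : Γ → ℚ), q + q' = n → P q p → P q' p' →
    P n (p * p') := by
  induction n with
  | zero =>
    intro q q' p p' hn h _
    have hq : q = 0 := by omega
    subst hq
    have h1 : p = 0 := h
    show p * p' = 0
    rw [h1, zero_mul]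
  | succ n ih =>
    intro q q' p p' hn h h'
    rcases q with _ | a
    · have h1 : p = 0 := h
      rw [h1, zero_mul]
      exact P_zero _
    rcases q' with _ | b
    · have h1 : p' = 0 := h'
      rw [h1, mul_zero]
      exact P_zero _
    intro g
    have e : Dl g (p * p') = Dl g p * p' + p * Dl g p' + Dl g p * Dl g p' := by
      funext h; simp only [Dl, Pi.add_apply, Pi.mul_apply]; ring
    rw [e]
    refine P_add (P_add ?_ ?_) ?_
    · exact ih a (b + 1) _ _ (by omega) (h g) h'
    · exact ih (a + 1) b _ _ (by omega) h (h' g)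
    · exact ih a (b + 1) _ _ (by omega) (h g) (P_succ (h' g))

/-- (1) -/
theorem E_pow {q : ℕ} : ∀ {p : Γ → ℚ}, P q p → ∀ {z : MonoidAlgebra ℚ Γ}, z ∈ (aug Γ) ^ q →
    E p z = 0 := by
  induction q with
  | zero =>
    intro p h z _
    have h1 : p = 0 := h
    rw [h1, E_eq_sum]
    simp
  | succ q ih =>
    intro p h z hz
    rw [Submodule.pow_succ] at hz
    refine Submodule.mul_induction_on (C := fun z => E p z = 0) hz ?_ ?_
    · intro m hm n hn
      rw [E_mul p m (fun g => ih (h g) hm)]
      have : augHom Γ n = 0 := hn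
      rw [this, zero_mul]
    · intro x y hx hy
      rw [map_add, hx, hy, add_zero]

end

/-- (3) -/
theorem P_coeff {X : Type v} {Γ : Type u} [Group Γ] {D : ℕ} {c : Γ → List X → ℚ}
    (h : MagnusSys X (fun k => k ≤ D) Γ c) (n : ℕ) : ∀ v : List X, v.length = n → n ≤ D →
    P (n + 1) (fun g => c g v) := by
  induction n using Nat.strong_induction_on with
  | _ n ih =>
    intro v hv hn g
    have e : Dl g (fun g => c g v) =
        ∑ i ∈ Finset.range v.length, c g (v.drop i) • (fun h => c h (v.take i)) := by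
      funext x
      rw [Dl, h.mul x g v (by rw [hv]; exact hn), Finset.sum_range_succ, List.take_length,
        List.drop_length, h.nil, Finset.sum_apply]
      simp only [Pi.smul_apply, smul_eq_mul]
      rw [mul_one, add_sub_cancel_right]
      refine Finset.sum_congr rfl fun i _ => ?_
      ring
    rw [e]
    apply P_sum
    intro i hi
    have hi' := Finset.mem_range.mp hi
    apply P_smul
    have hl : (v.take i).length = i := by rw [List.length_take]; omega
    exact P_mono (by omega) (ih i (by omega) (v.take i) hl (by omega))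

theorem sep {X : Type v} {Γ : Type u} [Group Γ] {D : ℕ} {c : Γ → List X → ℚ}
    (h : MagnusSys X (fun k => k ≤ D) Γ c) (z : MonoidAlgebra ℚ Γ)
    (hz : ∀ q : ℕ, z ∈ (aug Γ) ^ q) : z = 0 := by
  classical
  by_contra hne
  have hsupp : z.coeff.support.Nonempty := by
    rw [Finset.nonempty_iff_ne_empty, Ne, Finsupp.support_eq_empty]
    intro h0
    exact hne (MonoidAlgebra.coeff_eq_zero.mp h0)
  obtain ⟨g₁, hg₁⟩ := hsupp
  have hv : ∀ g : Γ, g ≠ g₁ → ∃ v : List X, v.length ≤ D ∧ c g₁ v ≠ c g v := by
    intro g hg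
    by_contra hcon
    push Not at hcon
    exact hg (h.sep g₁ g hcon).symm
  choose! V hV1 hV2 using hv
  set p : Γ → ℚ := ∏ g ∈ z.coeff.support.erase g₁, ((fun x => c x (V g)) + (fun _ => - c g (V g)))
    with hp
  have hfin : ∃ q, P q p := by
    rw [hp]
    apply Finset.prod_induction _ (fun p : Γ → ℚ => ∃ q, P q p)
    · rintro a b ⟨q, hq⟩ ⟨q', hq'⟩
      exact ⟨q + q', P_mul (q + q') q q' a b rfl hq hq'⟩
    · exact ⟨1, P_const 1⟩
    · intro g hg
      have hg' := Finset.ne_of_mem_erase hg
      exact ⟨(V g).length + 1, P_add (P_coeff h _ (V g) rfl (hV1 g hg'))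
        (P_mono (by omega) (P_const _))⟩
  obtain ⟨q, hq⟩ := hfin
  have h0 := E_pow hq (hz q)
  rw [E_eq_sum, Finset.sum_eq_single g₁] at h0
  · have h1 : z.coeff g₁ ≠ 0 := Finsupp.mem_support_iff.mp hg₁
    have h2 : p g₁ ≠ 0 := by
      rw [hp, Finset.prod_apply, Finset.prod_ne_zero_iff]
      intro g hg
      have hg' := Finset.ne_of_mem_erase hg
      simp only [Pi.add_apply]
      intro h3
      exact hV2 g hg' (by linarith)
    exact mul_ne_zero h1 h2 h0
  · intro g hg hgne
    have : p g = 0 := by
      rw [hp, Finset.prod_apply]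
      apply Finset.prod_eq_zero (Finset.mem_erase.mpr ⟨hgne, hg⟩)
      simp
    rw [this, mul_zero]
  · intro h1
    exact absurd hg₁ h1

end Pool.Agent.Helper2.PC
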